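import Pool.Agent.V11187.HC.Gen

/-!
# The condensate fraction in the thermodynamic limit for hard balls with a fractional kinetic energy

`N` bosons on the three-dimensional torus of side `L` with the Hamiltonian

`∑_i (-μ Δ_i) + ∑_i (∫ K - K *)_i + ∑_{i<j} v(|x_i - x_j|)`,

where `0 ≤ μ ≤ τ`, the pair potential `v ≥ 0` is of finite range and may be infinite in a ball (hard
core), and the jump kernel `K` on `ℝ^3` is at least `c (1 + |z|)^(-(3 + m))`, `0 < m < 3`, and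
`∫ K(z) min(1, |z|²) dz ≤ τ`, for instance the kinetic energies `-μ Δ + a (-Δ)^(m/2)`, `μ ≥ 0`,
`a > 0`, `m < 2`.  In the thermodynamic limit `L → ∞`, `N / L^3 → ρ` the condensate fraction of the
ground states is eventually at least `c₀ > 0`, where `c₀` is the same for all small densities `ρ`:
the condensate fraction does not tend to zero in the dilute limit `ρ → 0`.
-/

set_option autoImplicit false

open MeasureTheory Filter Topology
open scoped ENNReal

namespace Pool.Agent.Results.MP_4952d6_mp.HardCoreThermodynamicLimit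

open Pool.Agent.W761.CB

/-- `Ψ` is a ground state of `N` particles: symmetric, of norm one, of least energy. -/
def IsGround {L : ℝ} [Fact (0 < L)] (μ : ℝ) (K : (Fin 3 → ℝ) → ℝ≥0∞) (v : ℝ → ℝ≥0∞) {N : ℕ}
    (Ψ : (Fin N → Tor 3 L) → ℂ) : Prop :=
  IsWf2 Ψ ∧ ∀ Φ : (Fin N → Tor 3 L) → ℂ, IsWf Φ →
    enN (ENNReal.ofReal μ) K v Ψ ≤ enN (ENNReal.ofReal μ) K v Φ

/-- **The condensate fraction of ground states in the thermodynamic limit.**  `0 < m < 3`,
`c, τ > 0`, and `v` is a measurable pair potential with values in `[0, ∞]` and of range at most `R₀`,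
not zero almost everywhere.  There are `ρ₁, c₀ > 0` such that for all `ρ ∈ (0, ρ₁]`, all
`μ ∈ [0, τ]`, all kernels `K` with `K(z) ≥ c (1 + |z|)^(-(3 + m))` and
`∫ K(z) min(1, |z|²) dz ≤ τ`, and all sequences of sides `L_j → ∞` and particle numbers `N_j` with
`N_j / L_j^3 → ρ`: the condensate fraction of all ground states `Ψ_j` of `N_j` particles on the torus
of side `L_j` is at least `c₀` for all large `j`, and so is each limit point `η` of these
fractions. -/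
theorem result (m c τ R₀ : ℝ) (hm : 0 < m) (hm3 : m < 3) (hc : 0 < c) (hτ : 0 < τ)
    (v : ℝ → ℝ≥0∞) (hv : Measurable v) (hvR : ∀ r, R₀ < r → v r = 0)
    (hv0 : ∫⁻ z : Fin 3 → ℝ, v (el z) ≠ 0) :
    ∃ ρ₁ c₀ : ℝ, 0 < ρ₁ ∧ 0 < c₀ ∧ ∀ ρ : ℝ, 0 < ρ → ρ ≤ ρ₁ →
      ∀ (μ : ℝ) (K : (Fin 3 → ℝ) → ℝ≥0∞), 0 ≤ μ → μ ≤ τ → Measurable K →
      (∀ z, ENNReal.ofReal (c * (1 + el z) ^ (-(3 + m))) ≤ K z) →
      ∫⁻ z, K z * ENNReal.ofReal (min 1 (el z ^ 2)) ≤ ENNReal.ofReal τ →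
      ∀ (L : ℕ → ℝ) [∀ j, Fact (0 < L j)] (N : ℕ → ℕ)
        (Ψ : ∀ j, (Fin (N j) → Tor 3 (L j)) → ℂ),
        Tendsto L atTop atTop → Tendsto (fun j => (N j : ℝ) / L j ^ 3) atTop (𝓝 ρ) →
        (∀ j, IsGround μ K v (Ψ j)) →
        (∀ᶠ j in atTop, c₀ ≤ condN (Ψ j) / N j) ∧
        ∀ η : ℝ, MapClusterPt η atTop (fun j => condN (Ψ j) / N j) → c₀ ≤ η := by
  obtain ⟨ρ₀, c₀, hρ₀, hc₀, h⟩ := Pool.Agent.V11187.HC.gen 3 m c τ R₀ hm (by exact_mod_cast hm3)
    hc hτ v hv hvR hv0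
  refine ⟨ρ₀ / 2, c₀, by positivity, hc₀, fun ρ hρ hρ1 μ K hμ hμτ hK hlb hub L _ N Ψ hL hN hg => ?_⟩
  have hev : ∀ᶠ j in atTop, c₀ ≤ condN (Ψ j) / N j := by
    obtain ⟨c₁, L₀, hc₁, h'⟩ := h (3 / 2 * ρ) (by linarith) (by linarith)
    have h1 : ∀ᶠ j in atTop, (N j : ℝ) / L j ^ 3 < 3 / 2 * ρ :=
      hN.eventually_lt_const (by linarith)
    have h2 : ∀ᶠ j in atTop, 3 / 4 * ρ < (N j : ℝ) / L j ^ 3 :=
      hN.eventually_const_lt (by linarith)
    filter_upwards [h1, h2, hL.eventually_ge_atTop L₀] with j h1 h2 h3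
    have hLj : 0 < L j := Fact.out
    have hL3 : 0 < L j ^ 3 := by positivity
    rw [div_lt_iff₀ hL3] at h1
    rw [lt_div_iff₀ hL3] at h2
    have hNj : (0 : ℝ) < N j := lt_trans (by positivity) h2
    rw [le_div_iff₀ hNj]
    refine h' (L j) μ K h3 hμ hμτ hK (fun z => ?_) hub (N j) (by linarith) h1.le (Ψ j) (hg j).1
      fun Φ hΦ => ((hg j).2 Φ hΦ).trans le_self_add
    exact_mod_cast hlb z
  refine ⟨hev, fun η hη => ?_⟩
  exact isClosed_Ici.mem_of_mapClusterPt hη hev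

end Pool.Agent.Results.MP_4952d6_mp.HardCoreThermodynamicLimit
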